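import Pool.Agent.K3h30.RS.Main

/-!
# MP_dd9835_nt: Rubin's conjecture holds for all `T` outside a set of density zero exactly when
Stark's conjecture over `ℚ` holds

Let `H / F` be a finite abelian extension of number fields with group `G`, `S` a finite set of
places of `F` which contains the archimedean and the ramified ones, `v_1, ..., v_r` the places of
`S` which split completely, `#S ≥ r + 1`, `w_i` a place over `v_i` (`RubinData`). For a finite set
`T` of prime ideals of `F` disjoint from `S`

* `Stark T` is Stark's conjecture over `ℚ`: there is a `u` in `e_r ℚ ⋀^r U_{S,T}` with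
  `φ (λ (u)) = Θ^{(r)}_{S,T}(H/F, 0)`;
* `Rubin T` is the statement of Q1: there is such a `u` with `ψ (u) ∈ ℤ[G]` for all
  `ψ = ψ_1 ∧ ... ∧ ψ_r`, `ψ_i ∈ Hom_{ℤ[G]}(U_{S,T}, ℤ[G])`.

The following are equivalent: `Stark T` for one `T`; `Stark T` for all `T`; `Rubin T` for one
admissible `T`; `Rubin T` for almost all `T`, that is, the proportion of the ideals `a` prime to `S`,
of norm at most `X`, such that the set `T` of the prime divisors of `a` is admissible and `Rubin T`
holds, tends to `1`; there are a finite extension `L / F` and a finite set of prime ideals outside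
which all `v` which split completely in `L` have the property that `Rubin T` holds for all `T` with
`v ∈ T`.
-/

set_option autoImplicit false

open NumberField IsDedekindDomain Filter Topology

noncomputable section

namespace Pool.Agent.Results.MP_dd9835_nt.AlmostAllT

open Pool.Agent.K3h30.RS

/-- Stark's conjecture over `ℚ` is equivalent to Rubin's conjecture for almost all `T`. -/
theorem result {F H G : Type} [Field F] [NumberField F] [Field H] [NumberField H] [Algebra F H]
    [CommGroup G] [Finite G] [MulSemiringAction G H] [IsGaloisGroup G F H]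
    (D : RubinData F H G) :
    List.TFAE [
      ∃ T : Finset (HeightOneSpectrum (𝓞 F)), Disjoint D.S T ∧ D.Stark T,
      ∀ T : Finset (HeightOneSpectrum (𝓞 F)), Disjoint D.S T → D.Stark T,
      ∃ T : Finset (HeightOneSpectrum (𝓞 F)), D.Allowed T ∧ D.Rubin T,
      Tendsto (fun X : ℕ => (Nat.card {a : Ideal (𝓞 F) // a ∈ D.ideals X ∧ D.RubinIdeal a} : ℝ) /
        Nat.card {a : Ideal (𝓞 F) // a ∈ D.ideals X}) atTop (𝓝 1),
      ∃ (L : Type) (_ : Field L) (_ : NumberField L) (_ : Algebra F L)
        (bad : Finset (HeightOneSpectrum (𝓞 F))), ∀ v : HeightOneSpectrum (𝓞 F), v ∉ bad →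
          SplitsIn L v → ∀ T : Finset (HeightOneSpectrum (𝓞 F)), Disjoint D.S T → v ∈ T →
            D.Rubin T] :=
  main D

end Pool.Agent.Results.MP_dd9835_nt.AlmostAllT
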