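import Pool.Agent.K3h30.RS.Main
import Pool.Agent.K3h56.E2.Fin2

/-!
# MP_dd9835_nt: Rubin's conjecture for extensions with group of exponent two

Let `H / F` be a finite abelian extension of number fields whose Galois group `G` has exponent two
(`γ ^ 2 = 1` for all `γ`: the composites of quadratic extensions of an arbitrary number field `F`),
`#G = 2 ^ m`, `S` a finite set of places of `F` which contains the archimedean and the ramified ones,
`v_1, ..., v_r` the places of `S` which split completely, `#S ≥ r + 1`, `w_i` a place over `v_i`
(`RubinData`). `Allowed T` is the condition of the question on `T`, `Rubin T` is the statement of Q1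
for the set `T`: there is a `u` in `e_r ℚ ⋀^r U_{S,T}` with `φ (λ (u)) = Θ^{(r)}_{S,T}(H/F, 0)` and
`ψ (u) ∈ ℤ[G]` for all `ψ = ψ_1 ∧ ... ∧ ψ_r`, `ψ_i ∈ Hom_{ℤ[G]}(U_{S,T}, ℤ[G])`.

1. `Rubin T` holds for all admissible `T` with `m ≤ (#S - r - 1) + max (0, t - r - 1)`, where `t` is
   the number of the prime ideals in `T` which do not divide `2`. In particular it holds for all
   admissible `T` if `#S ≥ m + r + 1`, and for all admissible `T` with `t ≥ m + 2 r + 2 - #S`,
   `t ≥ r + 1`.
2. `Rubin T` holds for almost all `T`: the proportion of the ideals `a` prime to `S`, of norm at most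
   `X`, such that the set `T` of the prime divisors of `a` is admissible and `Rubin T` holds, tends
   to `1`.
3. There are a finite extension `L / F` and a finite set of prime ideals outside which all `v`
   which split completely in `L` have the property that `Rubin T` holds for all `T` with `v ∈ T`.

No conjecture is assumed. The proof of 1 is by the characters `χ` of `G`. The Dedekind zeta function
has the leading term `± h R / w` at `s = 0`; for `χ ≠ 1`, `L_S(χ, s)` is the quotient of the zeta
functions of the quadratic field `K` of `χ` and of `F`, with the Euler factors at `S` removed. An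
index theorem for `S`-units, the index `[U_K : μ U_F U_K^-]` and the capitulation kernel of the
`S`-class group of `F` in `K` give that the leading term is, up to sign, an integral multiple of
`2 ^ (#S - r - 1)` times the determinant of the logarithms of a basis of `U_K^-` divided by the
number of the roots of unity in `U_K^-`. The reduction modulo `T` has a cokernel whose order is
divisible by `2 ^ (t - r - 1)`, and `#G ∣ 2 ^ (#S - r - 1 + t - r - 1)` removes the denominator of
the idempotent of `χ`. Parts 2 and 3 use Stark's conjecture over `ℚ` for `H / F` (Tate), which is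
also proved here, and the landed theorem `AlmostAllT`.
-/

set_option autoImplicit false

open NumberField IsDedekindDomain Filter Topology

noncomputable section

namespace Pool.Agent.Results.MP_dd9835_nt.ExponentTwo

open Pool.Agent.K3h30.RS

/-- Rubin's conjecture for groups of exponent two. -/
theorem result {F H G : Type} [Field F] [NumberField F] [Field H] [NumberField H] [Algebra F H]
    [CommGroup G] [Finite G] [MulSemiringAction G H] [IsGaloisGroup G F H]
    (D : RubinData F H G) (hG : ∀ γ : G, γ ^ 2 = 1) :
    (∀ (m : ℕ) (T : Finset (HeightOneSpectrum (𝓞 F))), Nat.card G = 2 ^ m → D.Allowed T →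
      m + (D.r + 1) ≤ Fintype.card (InfinitePlace F) + D.S.card +
        ((T.filter fun v => Odd (Ideal.absNorm v.asIdeal)).card - (D.r + 1)) → D.Rubin T) ∧
    Tendsto (fun X : ℕ => (Nat.card {a : Ideal (𝓞 F) // a ∈ D.ideals X ∧ D.RubinIdeal a} : ℝ) /
        Nat.card {a : Ideal (𝓞 F) // a ∈ D.ideals X}) atTop (𝓝 1) ∧
    ∃ (L : Type) (_ : Field L) (_ : NumberField L) (_ : Algebra F L)
      (bad : Finset (HeightOneSpectrum (𝓞 F))), ∀ v : HeightOneSpectrum (𝓞 F), v ∉ bad →
        SplitsIn L v → ∀ T : Finset (HeightOneSpectrum (𝓞 F)), Disjoint D.S T → v ∈ T →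
          D.Rubin T := by
  have hG' : ∀ γ : G, γ * γ = 1 := fun γ => by rw [← pow_two]; exact hG γ
  have h := Pool.Agent.K3h56.E2.stark D hG'
  have hm := main D
  have h0 : ∃ T : Finset (HeightOneSpectrum (𝓞 F)), Disjoint D.S T ∧ D.Stark T :=
    ⟨∅, Finset.disjoint_empty_right _, h⟩
  refine ⟨fun m T hc hT hle => ?_, (hm.out 0 3).1 h0, (hm.out 0 4).1 h0⟩
  refine Pool.Agent.K3h56.E2.rubin D hG' T hT ?_
  rw [hc]
  apply pow_dvd_pow
  unfold Pool.Agent.K3h56.E2.oddCard
  omega

end Pool.Agent.Results.MP_dd9835_nt.ExponentTwo
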