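import Pool.Agent.K3h81.RL.Fin

/-!
# MP_dd9835_nt: Rubin's conjecture for `S ∪ V` and the Frobenius automorphisms of `V`

Let `H / F` be a finite abelian extension of number fields with group `G`, `S` a finite set of
places of `F` which contains the archimedean and the ramified ones, `v_1, ..., v_r` the places of
`S` which split completely, `#S ≥ r + 1`, `w_i` a place over `v_i` (`RubinData`). Let `V`, `V'` be
finite sets of prime ideals of `F` outside `S`, none of which splits completely in `H`, and let
`σ v` be the Frobenius automorphism of `v`. The data for `S ∪ V` are `D.addPrimes V hV`; the number `r`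
and the places `w_i` do not change.

(1) If there is an injection `e : V → V'` such that `σ (e v)` is a power of `σ v` for all `v`, then
Rubin's conjecture for `S ∪ V` and `T` implies Rubin's conjecture for `S ∪ V'` and `T`. In particular
Rubin's conjecture for `S ∪ V` and `T` depends only on `S`, `T` and on the numbers of the elements of `V`
with given Frobenius automorphisms.

(2) Let `C` be a set of nontrivial elements of `G`. If Rubin's conjecture for `T` and `S ∪ V` holds for one
set `V`, disjoint from `T`, with `{σ v : v ∈ V} = C`, then it holds for all such sets `V` for which every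
element of `C` is the Frobenius automorphism of sufficiently many elements of `V`; this is the case
exactly if the Stark element of `(S, T)` exists at the characters which are nontrivial on all
elements of `C`, and becomes integral after multiplication by a power of `∏ (1 - g)`, `g ∈ C`. If `C`
contains for every prime divisor `l` of `|G|` an element of `l`-power order, then this is the case
exactly if this Stark element is integral outside the prime divisors of `|G|`.

(3) If Stark's conjecture over `ℚ` holds for `H / F` and `S`, then for every prime number `p` there is a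
number `K` such that the part at `p` of Rubin's conjecture holds for `S ∪ V` and for all `T` if the
Frobenius automorphisms of at least `K` elements of `V` have `p`-power order.

Part (3) is the theorem `large` of helper30; parts of the proof are by helpers 4, 11, 30, 51, 59, 66,
72, 90, 91, 92.
-/

set_option autoImplicit false

open NumberField IsDedekindDomain Filter Topology

noncomputable section

namespace Pool.Agent.Results.MP_dd9835_nt.FrobeniusTypes

open Pool.Agent.K3h30.RS Pool.Agent.K3h81.RL

/-- Rubin's conjecture for `S ∪ V` in terms of the Frobenius automorphisms of `V`. -/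
theorem result {F H G : Type} [Field F] [NumberField F] [Field H] [NumberField H] [Algebra F H]
    [CommGroup G] [Finite G] [MulSemiringAction G H] [IsGaloisGroup G F H]
    (D : RubinData F H G) :
    (∀ (T V V' : Finset (HeightOneSpectrum (𝓞 F))) (hV : ∀ v ∈ V, v ∉ D.S ∧ D.σ v ≠ 1)
      (hV' : ∀ v ∈ V', v ∉ D.S ∧ D.σ v ≠ 1),
      (∃ e : HeightOneSpectrum (𝓞 F) → HeightOneSpectrum (𝓞 F),
        Set.InjOn e (V : Set (HeightOneSpectrum (𝓞 F))) ∧
          ∀ v ∈ V, e v ∈ V' ∧ D.σ (e v) ∈ Subgroup.zpowers (D.σ v)) →
      (D.addPrimes V hV).Rubin T → (D.addPrimes V' hV').Rubin T) ∧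
    (∀ (T : Finset (HeightOneSpectrum (𝓞 F))) (C : Finset G) (hC : (1 : G) ∉ C),
      List.TFAE [
        ∃ V, ∃ h : OfType D T C 1 V, (D.addPrimes V (h.extra hC)).Rubin T,
        ∃ K : ℕ, ∀ V, ∀ h : OfType D T C K V, (D.addPrimes V (h.extra hC)).Rubin T,
        AwayFrom D T C (∏ g ∈ C, (1 - MonoidAlgebra.single g 1))] ∧
      ((∀ l : ℕ, l.Prime → l ∣ Nat.card G → ∃ g ∈ C, ∃ j : ℕ, orderOf g = l ^ j) →
        (AwayFrom D T C (∏ g ∈ C, (1 - MonoidAlgebra.single g 1)) ↔
          AwayFrom D T C (Nat.card G : MonoidAlgebra ℤ G)))) ∧
    ((∃ T, D.Stark T) → ∀ p : ℕ, p.Prime → ∃ K : ℕ,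
      ∀ (V : Finset (HeightOneSpectrum (𝓞 F))) (hV : ∀ v ∈ V, v ∉ D.S ∧ D.σ v ≠ 1),
        K ≤ Nat.card {v : HeightOneSpectrum (𝓞 F) // v ∈ V ∧ ∃ k : ℕ, D.σ v ^ p ^ k = 1} →
        ∀ T : Finset (HeightOneSpectrum (𝓞 F)), Disjoint (D.addPrimes V hV).S T →
          (D.addPrimes V hV).RubinAt p T) := by
  refine ⟨?_, fun T C hC => main D T C hC, ?_⟩
  · rintro T V V' hV hV' ⟨e, he, h⟩ hR
    exact rubin_mono D T hV hV' e he (fun v hv => (h v hv).1) (fun v hv => (h v hv).2) hR
  · rintro ⟨T, hT⟩ p hp
    exact large D hT p hp

end Pool.Agent.Results.MP_dd9835_nt.FrobeniusTypes
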