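import Pool.Agent.K3h30.RS.Dich
import Pool.Agent.K3h66.RS.Mono
import Pool.Agent.K3h23.RS.Tors

/-!
# MP_dd9835_nt: Rubin's conjecture for all `T` follows from almost all sets `T = {v}`

Let `H / F` be a finite abelian extension of number fields with group `G`, `S` a finite set of
places of `F` which contains the archimedean and the ramified ones, `v_1, ..., v_r` the places of
`S` which split completely, `#S ≥ r + 1`, `w_i` a place over `v_i` (`RubinData`). `Rubin T` is the
statement of Q1 for the set `T`, `Allowed T` the condition on `T` (disjoint from `S`, two prime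
ideals of different residue characteristics or one of residue characteristic `> [F : ℚ] + 1`).

Either `Rubin T` holds for all admissible `T`, or it fails for a positive proportion of the
one-element sets: for a constant `c > 0` and all large `X` there are at least `c π(X)` prime ideals
`v` of norm at most `X` such that `{v}` is admissible and `Rubin {v}` is false.
-/

set_option autoImplicit false

open NumberField IsDedekindDomain Filter Topology

noncomputable section

namespace Pool.Agent.Results.MP_dd9835_nt.PrimesT

open Pool.Agent.K3h30.RS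

/-- Rubin's conjecture for all `T`, or a positive proportion of the sets `{v}` are
counterexamples. -/
theorem result {F H G : Type} [Field F] [NumberField F] [Field H] [NumberField H] [Algebra F H]
    [CommGroup G] [Finite G] [MulSemiringAction G H] [IsGaloisGroup G F H]
    (D : RubinData F H G) :
    (∀ T : Finset (HeightOneSpectrum (𝓞 F)), D.Allowed T → D.Rubin T) ∨
      PosProportion (fun v : HeightOneSpectrum (𝓞 F) => D.Allowed {v} ∧ ¬ D.Rubin {v}) :=
  dichotomy (Pool.Agent.K3h3.RS.t_UNIQ (Pool.Agent.K3h40.RS.t_SPANREG Pool.Agent.K3h40.RS.t_LOGINJ))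
    Pool.Agent.K3h66.RS.t_MONO (Pool.Agent.K3h23.RS.t_TORS Pool.Agent.K3h36.RS.t_NOZETA)
    Pool.Agent.K3h23.RS.t_FROBUNIQ (Pool.Agent.K3h8.RS.t_APPROX Pool.Agent.K3h73.RS.t_CHEB)
    (Pool.Agent.K3h36.RS.t_APPROX0 Pool.Agent.K3h73.RS.t_CHEB) Pool.Agent.K3h36.RS.t_NOZETA
    (Pool.Agent.K3h36.RS.t_PP Pool.Agent.K3h73.RS.t_CHEB) D

end Pool.Agent.Results.MP_dd9835_nt.PrimesT
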